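import Pool.Agent.Q262.EX.Fam2Z
import Pool.Agent.Q240.EX.Stm3

set_option autoImplicit false

/-!
# Project EX, job Fam2Zc: the point masses `2 m_j S(√ g_j)²` satisfy `Fam2` for `n ≥ c a²`
-/

open Polynomial Filter Topology Finset MeasureTheory
open Pool.Agent.Q240.CD Pool.Agent.Q240.EX

namespace Pool.Agent.Q262.EX

theorem Lc_fst (c : ℝ) : Tendsto (fun p : ℝ × ℕ => p.1) (Lc c) atTop :=
  tendsto_comap.mono_left inf_le_left

theorem Lc_le (c : ℝ) : ∀ᶠ p : ℝ × ℕ in Lc c, ⌈c * p.1 ^ 2⌉₊ ≤ p.2 :=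
  (inf_le_right : Lc c ≤ 𝓟 {p : ℝ × ℕ | ⌈c * p.1 ^ 2⌉₊ ≤ p.2}) (mem_principal_self _)

/-- products of numbers in `[0, 1]` -/
theorem tprod_01 {f : ℕ → ℝ} (hf : ∀ k, 0 ≤ f k ∧ f k ≤ 1) : 0 ≤ ∏' k, f k ∧ ∏' k, f k ≤ 1 := by
  by_cases hm : Multipliable f
  · have h1 : Tendsto (fun s : Finset ℕ => ∏ k ∈ s, f k) atTop (𝓝 (∏' k, f k)) := hm.hasProd
    exact ⟨ge_of_tendsto' h1 fun s => prod_nonneg fun k _ => (hf k).1,
      le_of_tendsto' h1 fun s => prod_le_one (fun k _ => (hf k).1) fun k _ => (hf k).2⟩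
  · rw [tprod_eq_one_of_not_multipliable hm]
    exact ⟨zero_le_one, le_rfl⟩

theorem fac_01 {a : ℝ} (ha : 0 < a) {n : ℕ} {t : ℝ} (ht : 0 ≤ t) (h : t ≤ xk a (n + 1) ^ 2) (k : ℕ) :
    0 ≤ 1 - t / xk a (n + 1 + k) ^ 2 ∧ 1 - t / xk a (n + 1 + k) ^ 2 ≤ 1 := by
  have h1 : xk a (n + 1) ≤ xk a (n + 1 + k) := by
    unfold xk
    refine div_le_div_of_nonneg_right (mul_le_mul_of_nonneg_left ?_ Real.pi_pos.le) ha.le
    exact_mod_cast (by omega : n + 1 ≤ n + 1 + k)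
  have h2 : 0 < xk a (n + 1) := by
    unfold xk
    have := Real.pi_pos
    push_cast
    positivity
  have h3 : t ≤ xk a (n + 1 + k) ^ 2 := h.trans (pow_le_pow_left₀ h2.le h1 2)
  have h4 : 0 < xk a (n + 1 + k) ^ 2 := by
    have := h2.trans_le h1
    positivity
  have h5 : t / xk a (n + 1 + k) ^ 2 ≤ 1 := (div_le_one h4).2 h3
  have h6 : 0 ≤ t / xk a (n + 1 + k) ^ 2 := by positivity
  exact ⟨by linarith, by linarith⟩

theorem Vp_01 {a : ℝ} (ha : 0 < a) {n' n : ℕ} {t : ℝ} (ht : 0 ≤ t) (h : t ≤ xk a (n' + 1) ^ 2) :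
    0 ≤ (Vp a n' n).eval t ∧ (Vp a n' n).eval t ≤ 1 := by
  rw [Vp_eval]
  exact ⟨prod_nonneg fun k _ => (fac_01 ha ht h k).1,
    prod_le_one (fun k _ => (fac_01 ha ht h k).1) fun k _ => (fac_01 ha ht h k).2⟩

theorem Sr_01 {a : ℝ} (ha : 0 < a) {n' n : ℕ} (hn : n' ≤ n) {x : ℝ} (h : x ^ 2 ≤ xk a (n' + 1) ^ 2) :
    0 ≤ Sr a n x ∧ Sr a n x ≤ 1 := by
  have h1 : x ^ 2 ≤ xk a (n + 1) ^ 2 := by
    refine h.trans (pow_le_pow_left₀ ?_ ?_ 2)
    · unfold xk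
      have := Real.pi_pos
      positivity
    · unfold xk
      have := Real.pi_pos
      gcongr
  unfold Sr
  exact tprod_01 fun k => fac_01 ha (sq_nonneg x) h1 k

/-- the bound for the quotient polynomial -/
theorem Vp_bound_c {a c : ℝ} (ha : 0 < a) (hc : 0 < c) {n : ℕ} {T : ℝ} {z : ℂ} (hz : ‖z‖ ≤ T) :
    ‖aeval z (Vp a ⌈c * a ^ 2⌉₊ n)‖ ≤ Real.exp (T * ck c) := by
  have hT : 0 ≤ T := (norm_nonneg z).trans hz
  obtain ⟨n', hn'⟩ : ∃ n', n' = ⌈c * a ^ 2⌉₊ := ⟨_, rfl⟩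
  rw [← hn']
  have hn1 : 1 ≤ n' := by
    have : 0 < n' := by rw [hn']; exact Nat.ceil_pos.2 (by positivity)
    omega
  obtain ⟨hS, -, hub⟩ := a_sn a n' ha hn1
  have h1 : sn a n' ≤ ck c := by
    refine hub.trans ?_
    have h2 : c * a ^ 2 ≤ (n' : ℝ) := by rw [hn']; exact Nat.le_ceil _
    have h3 : (0 : ℝ) < n' := by exact_mod_cast hn1
    unfold ck
    have := Real.pi_pos
    rw [div_le_div_iff₀ (by positivity) (by positivity)]
    have h4 : 0 < Real.pi ^ 2 := by positivity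
    nlinarith
  have hfac : ∀ k, ‖(1 : ℂ) - z / ((xk a (n' + 1 + k) : ℝ) : ℂ) ^ 2‖ ≤
      Real.exp (T * (1 / xk a (n' + 1 + k) ^ 2)) := by
    intro k
    have h2 : ‖z / ((xk a (n' + 1 + k) : ℝ) : ℂ) ^ 2‖ ≤ T * (1 / xk a (n' + 1 + k) ^ 2) := by
      rw [norm_div, norm_pow, Complex.norm_real, Real.norm_eq_abs, sq_abs, mul_one_div]
      gcongr
    calc ‖(1 : ℂ) - z / ((xk a (n' + 1 + k) : ℝ) : ℂ) ^ 2‖
        ≤ ‖(1 : ℂ)‖ + ‖z / ((xk a (n' + 1 + k) : ℝ) : ℂ) ^ 2‖ := norm_sub_le _ _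
      _ ≤ T * (1 / xk a (n' + 1 + k) ^ 2) + 1 := by rw [norm_one]; linarith
      _ ≤ _ := Real.add_one_le_exp _
  rw [Vp_aeval, norm_prod]
  calc ∏ k ∈ range (n - n'), ‖(1 : ℂ) - z / ((xk a (n' + 1 + k) : ℝ) : ℂ) ^ 2‖
      ≤ ∏ k ∈ range (n - n'), Real.exp (T * (1 / xk a (n' + 1 + k) ^ 2)) :=
        prod_le_prod (fun _ _ => norm_nonneg _) fun k _ => hfac k
    _ = Real.exp (T * ∑ k ∈ range (n - n'), 1 / xk a (n' + 1 + k) ^ 2) := by
        rw [← Real.exp_sum, mul_sum]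
    _ ≤ Real.exp (T * sn a n') := by
        refine Real.exp_le_exp.2 (mul_le_mul_of_nonneg_left ?_ hT)
        exact hS.sum_le_tsum _ fun k _ => by positivity
    _ ≤ Real.exp (T * ck c) := Real.exp_le_exp.2 (mul_le_mul_of_nonneg_left h1 hT)

/-- **Fam2Zc** -/
theorem fam2Zc : S_Fam2Zc := by
  intro c hc g m hg hg0 hm hsum hdfn
  have hgp : ∀ j, 0 < g j := fun j => hg0.trans_le (hg.monotone (Nat.zero_le j))
  have hmp : ∀ j, 0 < m j := fun j => one_pos.trans_le (hm j)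
  have hg78 : ∀ j, 0 < g j ^ (7 / 8 : ℝ) := fun j => Real.rpow_pos_of_pos (hgp j) _
  have hsq : ∀ j, Real.sqrt (g j) ^ 2 = g j := fun j => Real.sq_sqrt (hgp j).le
  have hdiv : ∀ j, m j / g j ≤ (1 / g 0 ^ (1 / 8 : ℝ)) * (m j / g j ^ (7 / 8 : ℝ)) := by
    intro j
    have e : g j ^ (7 / 8 : ℝ) * g j ^ (1 / 8 : ℝ) = g j := by
      rw [← Real.rpow_add (hgp j)]
      norm_num
    have h6 : g 0 ^ (1 / 8 : ℝ) ≤ g j ^ (1 / 8 : ℝ) :=
      Real.rpow_le_rpow hg0.le (hg.monotone (Nat.zero_le j)) (by norm_num)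
    have h7 : 0 < g 0 ^ (1 / 8 : ℝ) := Real.rpow_pos_of_pos hg0 _
    have h8 := hg78 j
    rw [div_mul_div_comm, one_mul]
    refine div_le_div_of_nonneg_left (hmp j).le (by positivity) ?_
    calc g 0 ^ (1 / 8 : ℝ) * g j ^ (7 / 8 : ℝ) ≤ g j ^ (1 / 8 : ℝ) * g j ^ (7 / 8 : ℝ) :=
          mul_le_mul_of_nonneg_right h6 h8.le
      _ = g j := by rw [mul_comm, e]
  have hmg : Summable fun j => m j / g j :=
    Summable.of_nonneg_of_le (fun j => (div_pos (hmp j) (hgp j)).le) hdiv (hsum.mul_left _)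
  have hgs : Summable fun j => 1 / g j :=
    Summable.of_nonneg_of_le (fun j => (div_pos one_pos (hgp j)).le)
      (fun j => div_le_div_of_nonneg_right (hm j) (hgp j).le) hmg
  have hPM : ∀ (a : ℝ) (n : ℕ), 0 < a → PM g (Mn g m (a, n)) n := fun a n ha =>
    pm_all hg hg0 hm hmg ha (hdfn a n ha)
  refine ⟨hPM, ?_⟩
  -- the smaller degree
  obtain ⟨nc, hnc⟩ : ∃ nc : ℝ → ℕ, nc = fun a => ⌈c * a ^ 2⌉₊ := ⟨_, rfl⟩
  have hncl : Tendsto (fun a : ℝ => ((nc a : ℕ) : ℝ) / a ^ 2) atTop (𝓝 c) := by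
    rw [hnc]
    exact (tendsto_nat_ceil_mul_div_atTop hc.le).comp (tendsto_pow_atTop (α := ℝ) (n := 2) two_ne_zero)
  have hnct : Tendsto nc atTop atTop := by
    rw [hnc]
    exact tendsto_nat_ceil_atTop.comp ((tendsto_pow_atTop (α := ℝ) (n := 2) two_ne_zero).const_mul_atTop hc)
  have hnc_le : ∀ᶠ p : ℝ × ℕ in Lc c, nc p.1 ≤ p.2 := by
    rw [hnc]
    exact Lc_le c
  -- the family for the smaller degree
  obtain ⟨μ, hμ⟩ : ∃ μ : ℕ → ℝ, μ = fun j => 2 * m j * Real.exp (-(2 * ck c * g j)) := ⟨_, rfl⟩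
  have hFam : Fam atTop g μ nc (fun a => Mn g m (a, nc a)) := by
    rw [hμ]
    refine a_famZ g m hg hg0 hm hsum nc c hc hncl ?_
    filter_upwards [eventually_gt_atTop 0] with a ha q hq hq0
    exact hdfn a (nc a) ha q hq hq0
  have hpos : ∀ᶠ p : ℝ × ℕ in Lc c, 0 < p.1 := (Lc_fst c).eventually_gt_atTop 0
  -- the limit of `S`
  have hS1 : ∀ j, Tendsto (fun a : ℝ => Sr a (nc a) (Real.sqrt (g j))) atTop (𝓝 (Real.exp (-(ck c * g j)))) := by
    intro j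
    have h6 := (tendstoLocallyUniformlyOn_univ.2 (a_limS nc c hc hncl)).tendsto_at
      (Set.mem_univ ((Real.sqrt (g j) : ℝ) : ℂ))
    have h7 : ∀ a, Sp a (nc a) ((Real.sqrt (g j) : ℝ) : ℂ) = ((Sr a (nc a) (Real.sqrt (g j)) : ℝ) : ℂ) :=
      fun a => (a_spB a (nc a)).2.2.2.1 _
    simp only [h7] at h6
    have h8 : Complex.exp (-(ck c * ((Real.sqrt (g j) : ℝ) : ℂ) ^ 2)) =
        ((Real.exp (-(ck c * g j)) : ℝ) : ℂ) := by
      rw [← Complex.ofReal_pow, hsq j]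
      push_cast
      rfl
    rw [h8] at h6
    exact (Complex.continuous_re.tendsto _).comp h6
  -- the points are inside for large `a`
  have hin : ∀ j, ∀ᶠ a : ℝ in atTop, g j ≤ xk a (nc a + 1) ^ 2 := by
    intro j
    filter_upwards [eventually_gt_atTop 0, eventually_ge_atTop ((1 + g j) / c)] with a ha ha1
    rw [div_le_iff₀ hc] at ha1
    have h1 : c * a ^ 2 ≤ (nc a : ℝ) := by rw [hnc]; exact Nat.le_ceil _
    have h2 : c * a ≤ xk a (nc a + 1) := by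
      unfold xk
      rw [le_div_iff₀ ha]
      push_cast
      have := Real.pi_gt_three
      have h3 : (0 : ℝ) ≤ nc a := Nat.cast_nonneg _
      nlinarith
    have h4 := hgp j
    have h5 : 1 + g j ≤ xk a (nc a + 1) := by linarith
    nlinarith
  -- the lower bounds
  have hlow : ∀ j, ∀ᶠ p : ℝ × ℕ in Lc c, Real.exp (-(ck c * g j)) / 2 < (Vp p.1 (nc p.1) p.2).eval (g j) ∧
      Real.exp (-(ck c * g j)) / 2 < Sr p.1 p.2 (Real.sqrt (g j)) := by
    intro j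
    have h1 := (hS1 j).eventually (lt_mem_nhds (half_lt_self (Real.exp_pos (-(ck c * g j)))))
    filter_upwards [hpos, hnc_le, (Lc_fst c).eventually h1, (Lc_fst c).eventually (hin j)] with p hp hnp h2 h3
    have h4 := Sr_split hp hnp (Real.sqrt (g j))
    rw [hsq j] at h4
    have h5 := Vp_01 hp (n := p.2) (hgp j).le h3
    have h6 := Sr_01 hp hnp (x := Real.sqrt (g j)) (by rw [hsq j]; exact h3)
    constructor
    · nlinarith
    · nlinarith
  refine ⟨?_, hg, hg0, hgs, ?_, ?_, ?_⟩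
  · -- `pm`
    filter_upwards [hpos] with p hp
    exact hPM p.1 p.2 hp
  · -- `low`
    intro j
    refine ⟨2 * m j * (Real.exp (-(ck c * g j)) / 2) ^ 2, by have := hmp j; positivity, ?_⟩
    filter_upwards [hlow j] with p hp
    unfold Mn
    have h1 := hp.2.le
    have h2 : 0 < Real.exp (-(ck c * g j)) / 2 := by positivity
    have h3 := hmp j
    gcongr
  · -- `sep`
    intro J j T ε hjJ hε
    obtain ⟨v, hv⟩ : ∃ v : ℝ, v = Real.exp (-(ck c * g j)) := ⟨_, rfl⟩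
    have hv0 : 0 < v := by rw [hv]; exact Real.exp_pos _
    obtain ⟨η, hη⟩ : ∃ η : ℝ, η = ε * v ^ 2 / 4 := ⟨_, rfl⟩
    have hη0 : 0 < η := by rw [hη]; positivity
    obtain ⟨D, hD, hJD⟩ := ((Pool.Agent.Q16.CD.ej_excess hg hgp hgs hFam.mpos hFam.maj j hη0).and
      (eventually_ge_atTop J)).exists
    obtain ⟨e', he'⟩ : ∃ e', e' = Pool.Agent.Q16.CD.ej g D j := ⟨_, rfl⟩
    have hjD : j < D := lt_of_lt_of_le hjJ hJD
    have e'1 : e'.eval (g j) = 1 := by rw [he']; exact Pool.Agent.Q16.CD.ej_self hg hjD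
    have e'0 : ∀ k, k < J → k ≠ j → e'.eval (g k) = 0 := fun k hk hkj => by
      rw [he']
      exact Pool.Agent.Q16.CD.ej_ne (lt_of_lt_of_le hk hJD) (Ne.symm hkj)
    have e'd : e'.natDegree ≤ D := by rw [he']; exact Pool.Agent.Q16.CD.ej_deg hg hjD
    rw [← he'] at hD
    obtain ⟨B', hB'⟩ : ∃ B' : ℝ, ∀ z ∈ Metric.closedBall (0 : ℂ) T, ‖aeval z e'‖ ≤ B' :=
      (isCompact_closedBall (0 : ℂ) T).exists_bound_of_continuousOn (Polynomial.continuous_aeval e').continuousOn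
    refine ⟨2 / v * (Real.exp (T * ck c) * B'), ?_⟩
    have hlt : ∀ᶠ a : ℝ in atTop, Lam g (Mn g m (a, nc a)) (e' * e') - Mn g m (a, nc a) j < η :=
      ((hFam.limP (e' * e')).sub (hFam.lim j)).eventually (gt_mem_nhds (by linarith))
    filter_upwards [hpos, hnc_le, (Lc_fst c).eventually hlt, hlow j, (Lc_fst c).eventually (hnct.eventually_ge_atTop (D + 1))]
      with p hp hnp hlt hVl hDn
    obtain ⟨w, hw⟩ : ∃ w : ℝ, w = (Vp p.1 (nc p.1) p.2).eval (g j) := ⟨_, rfl⟩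
    have hVl := hVl.1
    rw [← hw, ← hv] at hVl
    have hw0 : 0 < w := by linarith
    refine ⟨C (1 / w) * (Vp p.1 (nc p.1) p.2 * e'), ?_, ?_, ?_, ?_, ?_⟩
    · have h1 := natDegree_C_mul_le (1 / w) (Vp p.1 (nc p.1) p.2 * e')
      have h2 := natDegree_mul_le (p := Vp p.1 (nc p.1) p.2) (q := e')
      have h3 := Vp_deg p.1 (nc p.1) p.2
      omega
    · rw [eval_mul, eval_C, eval_mul, e'1, ← hw, mul_one, one_div, inv_mul_cancel₀ hw0.ne']
    · intro k hk hkj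
      rw [eval_mul, eval_mul, e'0 k hk hkj, mul_zero, mul_zero]
    · have h1 : Lam g (Mn g m p) (C (1 / w) * (Vp p.1 (nc p.1) p.2 * e') * (C (1 / w) * (Vp p.1 (nc p.1) p.2 * e'))) =
          1 / w ^ 2 * Lam g (Mn g m (p.1, nc p.1)) (e' * e') := by
        rw [← Lam_split hgp hp hnp e']
        unfold Lam
        rw [← tsum_mul_left]
        refine tsum_congr fun k => ?_
        simp only [eval_mul, eval_C]
        ring
      have h2 : Mn g m p j = 1 / w ^ 2 * Mn g m (p.1, nc p.1) j := by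
        rw [Mn_split hgp hp hnp, ← hw]
        field_simp
      rw [h1, h2, ← mul_sub]
      have h3 : 1 / w ^ 2 ≤ 4 / v ^ 2 := by
        rw [div_le_div_iff₀ (by positivity) (by positivity)]
        nlinarith
      calc 1 / w ^ 2 * (Lam g (Mn g m (p.1, nc p.1)) (e' * e') - Mn g m (p.1, nc p.1) j)
          ≤ 1 / w ^ 2 * η := mul_le_mul_of_nonneg_left hlt.le (by positivity)
        _ ≤ 4 / v ^ 2 * η := mul_le_mul_of_nonneg_right h3 hη0.le
        _ = ε := by rw [hη]; field_simp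
    · intro z hz
      rw [map_mul, map_mul, aeval_C, norm_mul, norm_mul]
      have h1 : ‖(algebraMap ℝ ℂ) (1 / w)‖ ≤ 2 / v := by
        rw [Complex.coe_algebraMap, Complex.norm_real, Real.norm_eq_abs, abs_of_pos (by positivity)]
        rw [div_le_div_iff₀ hw0 hv0]
        linarith
      have h2 : ‖aeval z (Vp p.1 (nc p.1) p.2)‖ ≤ Real.exp (T * ck c) := by
        rw [hnc]
        exact Vp_bound_c hp hc hz
      have h3 := hB' z (by simpa using hz)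
      gcongr
  · -- `del`
    intro ε hε
    have hex : ∀ a : ℝ, ∃ q : ℝ[X], 0 < a → Ex g (Mn g m (a, nc a)) (nc a) 0 q := by
      intro a
      by_cases ha : 0 < a
      · obtain ⟨q, hq⟩ := a_ext g _ _ (hPM a (nc a) ha) 0
        exact ⟨q, fun _ => hq⟩
      · exact ⟨0, fun h => absurd h ha⟩
    choose q0 hq0 using hex
    have h1 := a_del atTop g μ nc (fun a => Mn g m (a, nc a)) hFam q0 (by
      filter_upwards [eventually_gt_atTop 0] with a ha
      exact hq0 a ha)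
    have h2 := h1.eventually (gt_mem_nhds hε)
    filter_upwards [hpos, hnc_le, (Lc_fst c).eventually h2] with p hp hnp h3
    refine ⟨Vp p.1 (nc p.1) p.2 * q0 p.1, ?_, ?_, ?_⟩
    · have h4 := natDegree_mul_le (p := Vp p.1 (nc p.1) p.2) (q := q0 p.1)
      have h5 := Vp_deg p.1 (nc p.1) p.2
      have h6 := (hq0 p.1 hp).1
      omega
    · rw [eval_mul, Vp_zero, (hq0 p.1 hp).2.1, mul_one]
    · have h4 := Lam_split (g := g) (m := m) hgp hp hnp (q0 p.1)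
      rw [show (p : ℝ × ℕ) = (p.1, p.2) from rfl]
      rw [h4]
      exact h3.le

end Pool.Agent.Q262.EX
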