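import Pool.Agent.Q240.CD.All
import Pool.Agent.Q240.CD.SpR
import Pool.Agent.Q240.EX.Stm2

set_option autoImplicit false

/-!
# Project EX, job Fam2Z: the point masses `2 m_j S(√ g_j)²` satisfy `Fam2`
-/

open Polynomial Filter Topology Finset MeasureTheory
open Pool.Agent.Q240.CD Pool.Agent.Q240.EX

namespace Pool.Agent.Q262.EX

/-- the product of the factors between `n'` and `n` -/
noncomputable def Vp (a : ℝ) (n' n : ℕ) : ℝ[X] := ∏ k ∈ range (n - n'), (1 - C (1 / xk a (n' + 1 + k) ^ 2) * X)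

theorem Vp_eval (a : ℝ) (n' n : ℕ) (t : ℝ) :
    (Vp a n' n).eval t = ∏ k ∈ range (n - n'), (1 - t / xk a (n' + 1 + k) ^ 2) := by
  unfold Vp
  rw [eval_prod]
  refine prod_congr rfl fun k _ => ?_
  rw [eval_sub, eval_one, eval_mul, eval_C, eval_X]
  ring

theorem Vp_aeval (a : ℝ) (n' n : ℕ) (z : ℂ) :
    aeval z (Vp a n' n) = ∏ k ∈ range (n - n'), (1 - z / ((xk a (n' + 1 + k) : ℝ) : ℂ) ^ 2) := by
  unfold Vp
  rw [map_prod]
  refine prod_congr rfl fun k _ => ?_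
  rw [map_sub, map_one, map_mul, aeval_C, aeval_X, Complex.coe_algebraMap]
  push_cast
  ring

theorem Vp_zero (a : ℝ) (n' n : ℕ) : (Vp a n' n).eval 0 = 1 := by
  rw [Vp_eval]
  simp

theorem Vp_deg (a : ℝ) (n' n : ℕ) : (Vp a n' n).natDegree ≤ n - n' := by
  unfold Vp
  refine (natDegree_prod_le _ _).trans ?_
  have h : ∀ k ∈ range (n - n'), (1 - C (1 / xk a (n' + 1 + k) ^ 2) * X : ℝ[X]).natDegree ≤ 1 := by
    intro k _
    refine (natDegree_sub_le _ _).trans (max_le (by rw [natDegree_one]; omega) ?_)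
    exact (natDegree_C_mul_le _ _).trans natDegree_X.le
  refine (sum_le_sum h).trans ?_
  simp

theorem Sr_split {a : ℝ} (ha : 0 < a) {n' n : ℕ} (h : n' ≤ n) (x : ℝ) :
    Sr a n' x = (Vp a n' n).eval (x ^ 2) * Sr a n x := by
  have h1 := spR a n' (n - n') (x : ℂ) ha
  rw [Nat.add_sub_cancel' h, (a_spB a n').2.2.2.1, (a_spB a n).2.2.2.1] at h1
  have h2 : (∏ j ∈ range (n - n'), (1 - (x : ℂ) ^ 2 / ((xk a (n' + 1 + j) : ℝ) : ℂ) ^ 2)) =
      (((Vp a n' n).eval (x ^ 2) : ℝ) : ℂ) := by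
    rw [Vp_eval]
    push_cast
    rfl
  rw [h2] at h1
  exact_mod_cast h1

theorem Mn_split {g m : ℕ → ℝ} (hgp : ∀ j, 0 < g j) {a : ℝ} (ha : 0 < a) {n' n : ℕ} (h : n' ≤ n) (j : ℕ) :
    Mn g m (a, n') j = (Vp a n' n).eval (g j) ^ 2 * Mn g m (a, n) j := by
  unfold Mn
  simp only
  rw [Sr_split ha h, Real.sq_sqrt (hgp j).le]
  ring

theorem Lam_split {g m : ℕ → ℝ} (hgp : ∀ j, 0 < g j) {a : ℝ} (ha : 0 < a) {n' n : ℕ} (h : n' ≤ n) (p : ℝ[X]) :
    Lam g (Mn g m (a, n)) ((Vp a n' n * p) * (Vp a n' n * p)) = Lam g (Mn g m (a, n')) (p * p) := by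
  unfold Lam
  refine tsum_congr fun j => ?_
  rw [Mn_split hgp ha h]
  simp only [eval_mul]
  ring

/-- the point masses -/
theorem pm_all {g m : ℕ → ℝ} (hg : StrictMono g) (hg0 : 0 < g 0) (hm : ∀ j, 1 ≤ m j)
    (hmg : Summable fun j => m j / g j) {a : ℝ} {n : ℕ} (ha0 : 0 < a)
    (hd : ∀ q : ℝ[X], q.natDegree ≤ n → q ≠ 0 → 0 < Lam g (Mn g m (a, n)) (q * q)) :
    PM g (Mn g m (a, n)) n := by
  have hgp : ∀ j, 0 < g j := fun j => hg0.trans_le (hg.monotone (Nat.zero_le j))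
  have hmp : ∀ j, 0 < m j := fun j => one_pos.trans_le (hm j)
  have hnorm : ∀ j, ‖((Real.sqrt (g j) : ℝ) : ℂ)‖ = Real.sqrt (g j) := fun j => by
    rw [Complex.norm_real, Real.norm_eq_abs, abs_of_nonneg (Real.sqrt_nonneg _)]
  have him : ∀ j, |((Real.sqrt (g j) : ℝ) : ℂ).im| ≤ 1 / 2 := fun j => by
    rw [Complex.ofReal_im, abs_zero]
    norm_num
  have hsq : ∀ j, Real.sqrt (g j) ^ 2 = g j := fun j => Real.sq_sqrt (hgp j).le
  have hge : ∀ j, g j ≤ (1 + Real.sqrt (g j)) ^ 2 := fun j => by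
    have := hsq j
    nlinarith [Real.sqrt_nonneg (g j)]
  refine ⟨hg, hg0, fun j => ?_, ?_, hd⟩
  · have := hmp j
    unfold Mn
    positivity
  · obtain ⟨⟨C, hC, hCb⟩, -⟩ := a_inty a n ha0
    have h6 : ∀ j, Sr a n (Real.sqrt (g j)) ^ 2 * (1 + g j) ^ (2 * n) ≤ C / g j := by
      intro j
      have h7 := hCb ((Real.sqrt (g j) : ℝ) : ℂ) (him j)
      rw [(a_spB a n).2.2.2.1, Complex.norm_real, Real.norm_eq_abs, sq_abs, hnorm] at h7
      have h8 : (1 + g j) ^ (2 * n) ≤ (1 + Real.sqrt (g j)) ^ (4 * n) := by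
        have h9 : 1 + g j ≤ (1 + Real.sqrt (g j)) ^ 2 := by
          have := hsq j
          nlinarith [Real.sqrt_nonneg (g j)]
        calc (1 + g j) ^ (2 * n) ≤ ((1 + Real.sqrt (g j)) ^ 2) ^ (2 * n) :=
              pow_le_pow_left₀ (by linarith [hgp j]) h9 _
          _ = (1 + Real.sqrt (g j)) ^ (4 * n) := by
              rw [← pow_mul]
              congr 1
              ring
      have hs0 := Real.sqrt_nonneg (g j)
      calc Sr a n (Real.sqrt (g j)) ^ 2 * (1 + g j) ^ (2 * n)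
          ≤ C / (1 + Real.sqrt (g j)) ^ (4 * n + 2) * (1 + Real.sqrt (g j)) ^ (4 * n) :=
            mul_le_mul h7 h8 (by have := hgp j; positivity) (by positivity)
        _ = C / (1 + Real.sqrt (g j)) ^ 2 := by
            rw [pow_add]
            field_simp
        _ ≤ C / g j := div_le_div_of_nonneg_left hC.le (hgp j) (hge j)
    refine Summable.of_nonneg_of_le (fun j => ?_) (fun j => ?_) (hmg.mul_left (2 * C))
    · have := hmp j
      have := hgp j
      unfold Mn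
      positivity
    · calc Mn g m (a, n) j * (1 + g j) ^ (2 * n)
          = 2 * m j * (Sr a n (Real.sqrt (g j)) ^ 2 * (1 + g j) ^ (2 * n)) := by
            unfold Mn
            ring
        _ ≤ 2 * m j * (C / g j) := mul_le_mul_of_nonneg_left (h6 j) (by linarith [hmp j])
        _ = 2 * C * (m j / g j) := by ring

theorem Li_fst : Tendsto (fun p : ℝ × ℕ => p.1) Li atTop :=
  tendsto_comap.mono_left inf_le_left

theorem Li_snd : Tendsto (fun p : ℝ × ℕ => (p.2 : ℝ) / p.1 ^ 2) Li atTop :=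
  tendsto_comap.mono_left inf_le_right

/-- the smaller degree -/
noncomputable def nc (a : ℝ) : ℕ := ⌈a ^ 2⌉₊

theorem nc_lim : Tendsto (fun a : ℝ => ((nc a : ℕ) : ℝ) / a ^ 2) atTop (𝓝 1) := by
  have h1 := (tendsto_nat_ceil_mul_div_atTop (zero_le_one (α := ℝ))).comp
    (tendsto_pow_atTop (α := ℝ) (n := 2) two_ne_zero)
  refine h1.congr fun a => ?_
  simp [nc]

theorem nc_top : Tendsto nc atTop atTop := by
  have h1 : Tendsto (fun a : ℝ => a ^ 2) atTop atTop := tendsto_pow_atTop two_ne_zero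
  exact tendsto_nat_ceil_atTop.comp h1

theorem nc_le : ∀ᶠ p : ℝ × ℕ in Li, nc p.1 ≤ p.2 := by
  filter_upwards [Li_fst.eventually_ge_atTop 1, Li_snd.eventually_ge_atTop 2] with p hp1 hp2
  have h1 : 0 < p.1 ^ 2 := by positivity
  rw [le_div_iff₀ h1] at hp2
  have h2 : (1 : ℝ) ≤ p.1 ^ 2 := by nlinarith
  have h3 : (nc p.1 : ℝ) < p.1 ^ 2 + 1 := Nat.ceil_lt_add_one h1.le
  have h4 : (nc p.1 : ℝ) < p.2 := by linarith
  exact_mod_cast h4.le

/-- the bound for the quotient polynomial -/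
theorem Vp_bound {a : ℝ} (ha : 0 < a) {n : ℕ} {T : ℝ} {z : ℂ} (hz : ‖z‖ ≤ T) :
    ‖aeval z (Vp a (nc a) n)‖ ≤ Real.exp T := by
  have hT : 0 ≤ T := (norm_nonneg z).trans hz
  have hn1 : 1 ≤ nc a := Nat.one_le_iff_ne_zero.2 (by
    have : 0 < nc a := Nat.ceil_pos.2 (by positivity)
    omega)
  obtain ⟨hS, -, hub⟩ := a_sn a (nc a) ha hn1
  have h1 : sn a (nc a) ≤ 1 := by
    refine hub.trans ?_
    have h2 : a ^ 2 ≤ (nc a : ℝ) := Nat.le_ceil _
    have h3 : (0 : ℝ) < nc a := by exact_mod_cast hn1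
    rw [div_le_one (by positivity)]
    have h4 : (1 : ℝ) ≤ Real.pi ^ 2 := by
      have := Real.pi_gt_three
      nlinarith
    nlinarith
  have hfac : ∀ k, ‖(1 : ℂ) - z / ((xk a (nc a + 1 + k) : ℝ) : ℂ) ^ 2‖ ≤
      Real.exp (T * (1 / xk a (nc a + 1 + k) ^ 2)) := by
    intro k
    have h2 : ‖z / ((xk a (nc a + 1 + k) : ℝ) : ℂ) ^ 2‖ ≤ T * (1 / xk a (nc a + 1 + k) ^ 2) := by
      rw [norm_div, norm_pow, Complex.norm_real, Real.norm_eq_abs, sq_abs, mul_one_div]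
      gcongr
    calc ‖(1 : ℂ) - z / ((xk a (nc a + 1 + k) : ℝ) : ℂ) ^ 2‖
        ≤ ‖(1 : ℂ)‖ + ‖z / ((xk a (nc a + 1 + k) : ℝ) : ℂ) ^ 2‖ := norm_sub_le _ _
      _ ≤ T * (1 / xk a (nc a + 1 + k) ^ 2) + 1 := by rw [norm_one]; linarith
      _ ≤ _ := Real.add_one_le_exp _
  rw [Vp_aeval, norm_prod]
  calc ∏ k ∈ range (n - nc a), ‖(1 : ℂ) - z / ((xk a (nc a + 1 + k) : ℝ) : ℂ) ^ 2‖
      ≤ ∏ k ∈ range (n - nc a), Real.exp (T * (1 / xk a (nc a + 1 + k) ^ 2)) :=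
        prod_le_prod (fun _ _ => norm_nonneg _) fun k _ => hfac k
    _ = Real.exp (T * ∑ k ∈ range (n - nc a), 1 / xk a (nc a + 1 + k) ^ 2) := by
        rw [← Real.exp_sum, mul_sum]
    _ ≤ Real.exp (T * sn a (nc a)) := by
        refine Real.exp_le_exp.2 (mul_le_mul_of_nonneg_left ?_ hT)
        exact hS.sum_le_tsum _ fun k _ => by positivity
    _ ≤ Real.exp T := Real.exp_le_exp.2 (by nlinarith)

/-- **Fam2Z** -/
theorem fam2Z (hL : S_LimS2) : S_Fam2Z := by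
  intro g m hg hg0 hm hsum hdfn
  have hgp : ∀ j, 0 < g j := fun j => hg0.trans_le (hg.monotone (Nat.zero_le j))
  have hmp : ∀ j, 0 < m j := fun j => one_pos.trans_le (hm j)
  have hg78 : ∀ j, 0 < g j ^ (7 / 8 : ℝ) := fun j => Real.rpow_pos_of_pos (hgp j) _
  have hsq : ∀ j, Real.sqrt (g j) ^ 2 = g j := fun j => Real.sq_sqrt (hgp j).le
  have hdiv : ∀ j, m j / g j ≤ (1 / g 0 ^ (1 / 8 : ℝ)) * (m j / g j ^ (7 / 8 : ℝ)) := by
    intro j
    have e : g j ^ (7 / 8 : ℝ) * g j ^ (1 / 8 : ℝ) = g j := by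
      rw [← Real.rpow_add (hgp j)]
      norm_num
    have h6 : g 0 ^ (1 / 8 : ℝ) ≤ g j ^ (1 / 8 : ℝ) :=
      Real.rpow_le_rpow hg0.le (hg.monotone (Nat.zero_le j)) (by norm_num)
    have h7 : 0 < g 0 ^ (1 / 8 : ℝ) := Real.rpow_pos_of_pos hg0 _
    have h8 := hg78 j
    rw [div_mul_div_comm, one_mul]
    refine div_le_div_of_nonneg_left (hmp j).le (by positivity) ?_
    calc g 0 ^ (1 / 8 : ℝ) * g j ^ (7 / 8 : ℝ) ≤ g j ^ (1 / 8 : ℝ) * g j ^ (7 / 8 : ℝ) :=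
          mul_le_mul_of_nonneg_right h6 h8.le
      _ = g j := by rw [mul_comm, e]
  have hmg : Summable fun j => m j / g j :=
    Summable.of_nonneg_of_le (fun j => (div_pos (hmp j) (hgp j)).le) hdiv (hsum.mul_left _)
  have hgs : Summable fun j => 1 / g j :=
    Summable.of_nonneg_of_le (fun j => (div_pos one_pos (hgp j)).le)
      (fun j => div_le_div_of_nonneg_right (hm j) (hgp j).le) hmg
  have hPM : ∀ (a : ℝ) (n : ℕ), 0 < a → PM g (Mn g m (a, n)) n := fun a n ha =>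
    pm_all hg hg0 hm hmg ha (hdfn a n ha)
  refine ⟨hPM, ?_⟩
  -- the family for the smaller degree
  obtain ⟨μ, hμ⟩ : ∃ μ : ℕ → ℝ, μ = fun j => 2 * m j * Real.exp (-(2 * ck 1 * g j)) := ⟨_, rfl⟩
  have hFam : Fam atTop g μ nc (fun a => Mn g m (a, nc a)) := by
    rw [hμ]
    refine a_famZ g m hg hg0 hm hsum nc 1 one_pos nc_lim ?_
    filter_upwards [eventually_gt_atTop 0] with a ha q hq hq0
    exact hdfn a (nc a) ha q hq hq0
  have hpos : ∀ᶠ p : ℝ × ℕ in Li, 0 < p.1 := Li_fst.eventually_gt_atTop 0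
  -- the limit of `S`
  have hS2 : ∀ j, Tendsto (fun p : ℝ × ℕ => Sr p.1 p.2 (Real.sqrt (g j))) Li (𝓝 1) := by
    intro j
    have h6 := (tendstoLocallyUniformlyOn_univ.2 hL).tendsto_at
      (Set.mem_univ ((Real.sqrt (g j) : ℝ) : ℂ))
    have h7 : ∀ p : ℝ × ℕ, Sp p.1 p.2 ((Real.sqrt (g j) : ℝ) : ℂ) = ((Sr p.1 p.2 (Real.sqrt (g j)) : ℝ) : ℂ) :=
      fun p => (a_spB p.1 p.2).2.2.2.1 _
    simp only [h7] at h6
    have h8 := (Complex.continuous_re.tendsto _).comp h6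
    simpa [Function.comp_def] using h8
  have hS1 : ∀ j, Tendsto (fun a : ℝ => Sr a (nc a) (Real.sqrt (g j))) atTop (𝓝 (Real.exp (-(ck 1 * g j)))) := by
    intro j
    have h6 := (tendstoLocallyUniformlyOn_univ.2 (a_limS nc 1 one_pos nc_lim)).tendsto_at
      (Set.mem_univ ((Real.sqrt (g j) : ℝ) : ℂ))
    have h7 : ∀ a, Sp a (nc a) ((Real.sqrt (g j) : ℝ) : ℂ) = ((Sr a (nc a) (Real.sqrt (g j)) : ℝ) : ℂ) :=
      fun a => (a_spB a (nc a)).2.2.2.1 _
    simp only [h7] at h6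
    have h8 : Complex.exp (-(ck 1 * ((Real.sqrt (g j) : ℝ) : ℂ) ^ 2)) =
        ((Real.exp (-(ck 1 * g j)) : ℝ) : ℂ) := by
      rw [← Complex.ofReal_pow, hsq j]
      push_cast
      rfl
    rw [h8] at h6
    exact (Complex.continuous_re.tendsto _).comp h6
  -- the limit of the quotient
  have hV : ∀ j, Tendsto (fun p : ℝ × ℕ => (Vp p.1 (nc p.1) p.2).eval (g j)) Li (𝓝 (Real.exp (-(ck 1 * g j)))) := by
    intro j
    have h1 := ((hS1 j).comp Li_fst).div (hS2 j) one_ne_zero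
    rw [div_one] at h1
    refine h1.congr' ?_
    filter_upwards [hpos, nc_le, (hS2 j).eventually_ne one_ne_zero] with p hp hnp hne
    have h2 := Sr_split hp hnp (Real.sqrt (g j))
    rw [hsq j] at h2
    show Sr p.1 (nc p.1) (Real.sqrt (g j)) / Sr p.1 p.2 (Real.sqrt (g j)) = _
    rw [h2, mul_div_assoc, div_self hne, mul_one]
  refine ⟨?_, hg, hg0, hgs, ?_, ?_, ?_⟩
  · -- `pm`
    filter_upwards [hpos] with p hp
    exact hPM p.1 p.2 hp
  · -- `low`
    intro j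
    refine ⟨1, one_pos, ?_⟩
    have h1 := (hS2 j).pow 2
    rw [one_pow] at h1
    filter_upwards [h1.eventually (lt_mem_nhds (show (1 / 2 : ℝ) < 1 by norm_num))] with p hp
    have h2 := hm j
    unfold Mn
    nlinarith
  · -- `sep`
    intro J j T ε hjJ hε
    obtain ⟨v, hv⟩ : ∃ v : ℝ, v = Real.exp (-(ck 1 * g j)) := ⟨_, rfl⟩
    have hv0 : 0 < v := by rw [hv]; exact Real.exp_pos _
    obtain ⟨η, hη⟩ : ∃ η : ℝ, η = ε * v ^ 2 / 4 := ⟨_, rfl⟩
    have hη0 : 0 < η := by rw [hη]; positivity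
    obtain ⟨D, hD, hJD⟩ := ((Pool.Agent.Q16.CD.ej_excess hg hgp hgs hFam.mpos hFam.maj j hη0).and
      (eventually_ge_atTop J)).exists
    obtain ⟨e', he'⟩ : ∃ e', e' = Pool.Agent.Q16.CD.ej g D j := ⟨_, rfl⟩
    have hjD : j < D := lt_of_lt_of_le hjJ hJD
    have e'1 : e'.eval (g j) = 1 := by rw [he']; exact Pool.Agent.Q16.CD.ej_self hg hjD
    have e'0 : ∀ k, k < J → k ≠ j → e'.eval (g k) = 0 := fun k hk hkj => by
      rw [he']
      exact Pool.Agent.Q16.CD.ej_ne (lt_of_lt_of_le hk hJD) (Ne.symm hkj)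
    have e'd : e'.natDegree ≤ D := by rw [he']; exact Pool.Agent.Q16.CD.ej_deg hg hjD
    rw [← he'] at hD
    obtain ⟨B', hB'⟩ : ∃ B' : ℝ, ∀ z ∈ Metric.closedBall (0 : ℂ) T, ‖aeval z e'‖ ≤ B' :=
      (isCompact_closedBall (0 : ℂ) T).exists_bound_of_continuousOn (Polynomial.continuous_aeval e').continuousOn
    refine ⟨2 / v * (Real.exp T * B'), ?_⟩
    have hlt : ∀ᶠ a : ℝ in atTop, Lam g (Mn g m (a, nc a)) (e' * e') - Mn g m (a, nc a) j < η :=
      ((hFam.limP (e' * e')).sub (hFam.lim j)).eventually (gt_mem_nhds (by linarith))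
    have hVlow := (hV j).eventually (lt_mem_nhds (show v / 2 < Real.exp (-(ck 1 * g j)) by rw [← hv]; linarith))
    filter_upwards [hpos, nc_le, Li_fst.eventually hlt, hVlow, Li_fst.eventually (nc_top.eventually_ge_atTop (D + 1))]
      with p hp hnp hlt hVl hDn
    obtain ⟨w, hw⟩ : ∃ w : ℝ, w = (Vp p.1 (nc p.1) p.2).eval (g j) := ⟨_, rfl⟩
    rw [← hw] at hVl
    have hw0 : 0 < w := by linarith
    refine ⟨C (1 / w) * (Vp p.1 (nc p.1) p.2 * e'), ?_, ?_, ?_, ?_, ?_⟩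
    · have h1 := natDegree_C_mul_le (1 / w) (Vp p.1 (nc p.1) p.2 * e')
      have h2 := natDegree_mul_le (p := Vp p.1 (nc p.1) p.2) (q := e')
      have h3 := Vp_deg p.1 (nc p.1) p.2
      omega
    · rw [eval_mul, eval_C, eval_mul, e'1, ← hw, mul_one, one_div, inv_mul_cancel₀ hw0.ne']
    · intro k hk hkj
      rw [eval_mul, eval_mul, e'0 k hk hkj, mul_zero, mul_zero]
    · have h1 : Lam g (Mn g m p) (C (1 / w) * (Vp p.1 (nc p.1) p.2 * e') * (C (1 / w) * (Vp p.1 (nc p.1) p.2 * e'))) =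
          1 / w ^ 2 * Lam g (Mn g m (p.1, nc p.1)) (e' * e') := by
        rw [← Lam_split hgp hp hnp e']
        unfold Lam
        rw [← tsum_mul_left]
        refine tsum_congr fun k => ?_
        simp only [eval_mul, eval_C]
        ring
      have h2 : Mn g m p j = 1 / w ^ 2 * Mn g m (p.1, nc p.1) j := by
        rw [Mn_split hgp hp hnp, ← hw]
        field_simp
      rw [h1, h2, ← mul_sub]
      have h3 : 1 / w ^ 2 ≤ 4 / v ^ 2 := by
        rw [div_le_div_iff₀ (by positivity) (by positivity)]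
        nlinarith
      calc 1 / w ^ 2 * (Lam g (Mn g m (p.1, nc p.1)) (e' * e') - Mn g m (p.1, nc p.1) j)
          ≤ 1 / w ^ 2 * η := mul_le_mul_of_nonneg_left hlt.le (by positivity)
        _ ≤ 4 / v ^ 2 * η := mul_le_mul_of_nonneg_right h3 hη0.le
        _ = ε := by rw [hη]; field_simp
    · intro z hz
      rw [map_mul, map_mul, aeval_C, norm_mul, norm_mul]
      have h1 : ‖(algebraMap ℝ ℂ) (1 / w)‖ ≤ 2 / v := by
        rw [Complex.coe_algebraMap, Complex.norm_real, Real.norm_eq_abs, abs_of_pos (by positivity)]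
        rw [div_le_div_iff₀ hw0 hv0]
        linarith
      have h2 := Vp_bound hp (n := p.2) hz
      have h3 := hB' z (by simpa using hz)
      gcongr
  · -- `del`
    intro ε hε
    have hex : ∀ a : ℝ, ∃ q : ℝ[X], 0 < a → Ex g (Mn g m (a, nc a)) (nc a) 0 q := by
      intro a
      by_cases ha : 0 < a
      · obtain ⟨q, hq⟩ := a_ext g _ _ (hPM a (nc a) ha) 0
        exact ⟨q, fun _ => hq⟩
      · exact ⟨0, fun h => absurd h ha⟩
    choose q0 hq0 using hex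
    have h1 := a_del atTop g μ nc (fun a => Mn g m (a, nc a)) hFam q0 (by
      filter_upwards [eventually_gt_atTop 0] with a ha
      exact hq0 a ha)
    have h2 := h1.eventually (gt_mem_nhds hε)
    filter_upwards [hpos, nc_le, Li_fst.eventually h2] with p hp hnp h3
    refine ⟨Vp p.1 (nc p.1) p.2 * q0 p.1, ?_, ?_, ?_⟩
    · have h4 := natDegree_mul_le (p := Vp p.1 (nc p.1) p.2) (q := q0 p.1)
      have h5 := Vp_deg p.1 (nc p.1) p.2
      have h6 := (hq0 p.1 hp).1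
      omega
    · rw [eval_mul, Vp_zero, (hq0 p.1 hp).2.1, mul_one]
    · have h4 := Lam_split (g := g) (m := m) hgp hp hnp (q0 p.1)
      rw [show (p : ℝ × ℕ) = (p.1, p.2) from rfl]
      rw [h4]
      exact h3.le

end Pool.Agent.Q262.EX
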