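import Pool.Agent.Q240.CD.All
import Pool.Agent.Q240.EX.Stm

set_option autoImplicit false

/-!
# Project EX, job Q0c: the extremal polynomials converge on the complex plane
-/

open Polynomial Filter Topology Finset MeasureTheory
open Pool.Agent.Q240.CD Pool.Agent.Q240.EX

namespace Pool.Agent.Q262.EX

theorem aeval_of_eval {q : ℝ[X]} {a : ℕ → ℝ} {d : ℕ} (h : ∀ x : ℝ, q.eval x = ∏ j ∈ range d, (1 - x * a j)) (z : ℂ) :
    aeval z q = ∏ j ∈ range d, (1 - z * (a j : ℂ)) := by
  have h1 : q = ∏ j ∈ range d, (1 - X * C (a j)) := by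
    refine Polynomial.funext fun x => ?_
    rw [h, eval_prod]
    refine prod_congr rfl fun j _ => ?_
    rw [eval_sub, eval_one, eval_mul, eval_C, eval_X]
  rw [h1, map_prod]
  refine prod_congr rfl fun j _ => ?_
  rw [map_sub, map_one, map_mul, aeval_C, aeval_X, Complex.coe_algebraMap]

/-- **Q0c** -/
theorem q0c (hD : S_Del2) : S_Q0c := by
  intro ι l g N M hF q0 hq0
  have hmono := hF.mono
  have h0 := hF.pos
  have hg : ∀ j, 0 < g j := fun j => lt_of_lt_of_le h0 (hmono.monotone (Nat.zero_le j))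
  have hch : ∀ i, ∃ a : ℕ → ℝ, (PM g (M i) (N i) ∧ Ex g (M i) (N i) 0 (q0 i)) →
      ∃ d : ℕ, (∀ j, 0 ≤ a j) ∧ (∀ j, a j ≤ 1 / g j) ∧
      (∀ j, d ≤ j → a j = 0) ∧ ∀ x : ℝ, (q0 i).eval x = ∏ j ∈ range d, (1 - x * a j) := by
    intro i
    by_cases hi : PM g (M i) (N i) ∧ Ex g (M i) (N i) 0 (q0 i)
    · obtain ⟨a, d, h⟩ := Pool.Agent.Q225.CD.coeffs a_zer hi.1 hi.2
      exact ⟨a, fun _ => ⟨d, h⟩⟩
    · exact ⟨fun _ => 0, fun h => absurd h hi⟩
  choose a ha using hch
  have hev : ∀ᶠ i in l, ∃ d : ℕ, (∀ j, 0 ≤ a i j) ∧ (∀ j, a i j ≤ 1 / g j) ∧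
      (∀ j, d ≤ j → a i j = 0) ∧ ∀ x : ℝ, (q0 i).eval x = ∏ j ∈ range d, (1 - x * a i j) := by
    filter_upwards [hF.pm, hq0] with i h1 h2 using ha i ⟨h1, h2⟩
  have hdel := hD l g N M hF q0 hq0
  -- the values at the nodes tend to zero
  have hval : ∀ k, Tendsto (fun i => (q0 i).eval (g k)) l (𝓝 0) := by
    intro k
    obtain ⟨μ, hμ, hlow⟩ := hF.low k
    have h1 : Tendsto (fun i => √(1 / μ * Lam g (M i) (q0 i * q0 i))) l (𝓝 0) := by
      have h2 := (hdel.const_mul (1 / μ)).sqrt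
      rwa [mul_zero, Real.sqrt_zero] at h2
    refine squeeze_zero_norm' ?_ h1
    filter_upwards [hF.pm, hq0, hlow] with i hp hq hm
    have hs := Pool.Agent.Q280.CD2.summable_eval hp (q0 i * q0 i)
      (Pool.Agent.Q280.CD2.deg_mul hq.1 hq.1)
    have hle : M i k * (q0 i * q0 i).eval (g k) ≤ Lam g (M i) (q0 i * q0 i) :=
      hs.le_tsum k fun j _ => mul_nonneg (hp.nonneg j) (by rw [eval_mul]; exact mul_self_nonneg _)
    rw [eval_mul] at hle
    rw [Real.norm_eq_abs]
    refine Real.abs_le_sqrt ?_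
    have h3 : μ * ((q0 i).eval (g k)) ^ 2 ≤ Lam g (M i) (q0 i * q0 i) := by
      refine le_trans ?_ hle
      rw [← sq]
      exact mul_le_mul_of_nonneg_right hm (sq_nonneg _)
    rw [div_mul_eq_mul_div, le_div_iff₀ hμ]
    linarith
  -- the inverse zeros converge
  have hconv : ∀ k, Tendsto (fun i => a i k) l (𝓝 (1 / g k)) := by
    intro k
    induction k using Nat.strong_induction_on with
    | _ k ih =>
    have hP : Tendsto (fun i => ∏ j ∈ range k, (1 - g k * a i j)) l
        (𝓝 (∏ j ∈ range k, (1 - g k * (1 / g j)))) :=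
      tendsto_finsetProd _ fun j hj => ((ih j (Finset.mem_range.1 hj)).const_mul (g k)).const_sub 1
    have hP0 : ∏ j ∈ range k, (1 - g k * (1 / g j)) ≠ 0 := by
      refine Finset.prod_ne_zero_iff.2 fun j hj => ?_
      have h1 : g j < g k := hmono (Finset.mem_range.1 hj)
      have h2 : 1 < g k / g j := (one_lt_div (hg j)).2 h1
      have h3 : g k * (1 / g j) = g k / g j := by ring
      rw [h3]
      linarith
    obtain ⟨hc, hc'⟩ := Pool.Agent.Q280.CD2.GG_pos (g := fun j => g (k + 1 + j))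
      (fun i j hij => hmono (by omega)) (hg _)
      (hF.gsum.comp_injective (add_right_injective (k + 1))) (t := g k) (hg k).le
      (hmono (by omega))
    obtain ⟨c, hcd⟩ : ∃ c, c = GG (fun j => g (k + 1 + j)) (g k) := ⟨_, rfl⟩
    rw [← hcd] at hc hc'
    have hbd : ∀ᶠ i in l, ‖1 - g k * a i k‖
        ≤ |(q0 i).eval (g k)| / (|∏ j ∈ range k, (1 - g k * a i j)| * c) := by
      filter_upwards [hev, hP.eventually (isOpen_ne.mem_nhds hP0)] with i hi hPi
      obtain ⟨d, hd1, hd2, hd3, hd4⟩ := hi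
      have h1 : (q0 i).eval (g k) = ∏ j ∈ range (max d (k + 1)), (1 - g k * a i j) := by
        rw [hd4]
        refine Finset.prod_subset (range_mono (le_max_left _ _)) fun j _ hj => ?_
        rw [hd3 j (by simpa using hj), mul_zero, sub_zero]
      have h2 : ∏ j ∈ range (max d (k + 1)), (1 - g k * a i j)
          = (∏ j ∈ range k, (1 - g k * a i j)) * (1 - g k * a i k) *
            ∏ j ∈ Ico (k + 1) (max d (k + 1)), (1 - g k * a i j) := by
        rw [← Finset.prod_range_succ, Finset.prod_range_mul_prod_Ico _ (le_max_right _ _)]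
      have h3 : c ≤ ∏ j ∈ Ico (k + 1) (max d (k + 1)), (1 - g k * a i j) := by
        rw [Finset.prod_Ico_eq_prod_range]
        refine (hc' _).trans (Finset.prod_le_prod (fun j _ => ?_) fun j _ => ?_)
        · have h4 : g k < g (k + 1 + j) := hmono (by omega)
          have h5 : g k / g (k + 1 + j) < 1 := (div_lt_one (hg _)).2 h4
          linarith
        · have h4 := mul_le_mul_of_nonneg_left (hd2 (k + 1 + j)) (hg k).le
          have h5 : g k * (1 / g (k + 1 + j)) = g k / g (k + 1 + j) := by ring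
          rw [h5] at h4
          linarith
      have hPp : 0 < |∏ j ∈ range k, (1 - g k * a i j)| := abs_pos.2 hPi
      rw [Real.norm_eq_abs, le_div_iff₀ (mul_pos hPp hc), h1, h2, abs_mul, abs_mul]
      have h6 : 0 ≤ |∏ j ∈ range k, (1 - g k * a i j)| * |1 - g k * a i k| := by positivity
      have h7 : c ≤ |∏ j ∈ Ico (k + 1) (max d (k + 1)), (1 - g k * a i j)| :=
        h3.trans (le_abs_self _)
      calc |1 - g k * a i k| * (|∏ j ∈ range k, (1 - g k * a i j)| * c)
          = |∏ j ∈ range k, (1 - g k * a i j)| * |1 - g k * a i k| * c := by ring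
        _ ≤ _ := mul_le_mul_of_nonneg_left h7 h6
    have hlim : Tendsto (fun i => |(q0 i).eval (g k)| /
        (|∏ j ∈ range k, (1 - g k * a i j)| * c)) l (𝓝 0) := by
      have h1 := (hval k).abs.div (hP.abs.mul_const c) (mul_ne_zero (abs_ne_zero.2 hP0) hc.ne')
      rwa [abs_zero, zero_div] at h1
    have h2 := squeeze_zero_norm' hbd hlim
    have h3 := (h2.const_sub 1).div_const (g k)
    rw [sub_zero] at h3
    refine h3.congr fun i => ?_
    have := (hg k).ne'
    field_simp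
    ring
  -- the limit of the products, with a moving point
  rw [tendstoLocallyUniformly_iff_forall_tendsto]
  intro z0
  have hfst : Tendsto (fun p : ι × ℂ => p.1) (l ×ˢ 𝓝 z0) l := tendsto_fst
  have hsnd : Tendsto (fun p : ι × ℂ => p.2) (l ×ˢ 𝓝 z0) (𝓝 z0) := tendsto_snd
  have hz : ∀ᶠ p : ι × ℂ in l ×ˢ 𝓝 z0, ‖p.2‖ ≤ ‖z0‖ + 1 := by
    have h1 : ∀ᶠ z : ℂ in 𝓝 z0, ‖z‖ < ‖z0‖ + 1 :=
      (continuous_norm.tendsto z0).eventually (gt_mem_nhds (lt_add_one _))
    exact (hsnd.eventually h1).mono fun p hp => hp.le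
  have hA : Tendsto (fun p : ι × ℂ => aeval p.2 (q0 p.1)) (l ×ˢ 𝓝 z0) (𝓝 (GC g z0)) := by
    have hmain := tendsto_tprod_one_add_of_dominated_convergence (𝓕 := l ×ˢ 𝓝 z0)
      (f := fun (p : ι × ℂ) (j : ℕ) => -(p.2 * (a p.1 j : ℂ))) (g := fun j => -(z0 / (g j : ℂ)))
      (bound := fun j => (‖z0‖ + 1) * (1 / g j)) (hF.gsum.mul_left (‖z0‖ + 1)) (fun j => ?_) ?_
    · have e : ∏' j, (1 + -(z0 / (g j : ℂ))) = GC g z0 := by
        unfold GC
        exact tprod_congr fun j => by ring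
      rw [e] at hmain
      refine hmain.congr' ?_
      filter_upwards [hfst.eventually hev] with p hi
      obtain ⟨d, hd1, hd2, hd3, hd4⟩ := hi
      rw [aeval_of_eval hd4, tprod_eq_prod (s := range d)]
      · exact Finset.prod_congr rfl fun j _ => by ring
      · intro j hj
        rw [hd3 j (by simpa using hj)]
        simp
    · have h1 : Tendsto (fun p : ι × ℂ => ((a p.1 j : ℝ) : ℂ)) (l ×ˢ 𝓝 z0) (𝓝 (((1 / g j : ℝ)) : ℂ)) :=
        (Complex.continuous_ofReal.tendsto _).comp ((hconv j).comp hfst)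
      have h2 := (hsnd.mul h1).neg
      have h3 : z0 / (g j : ℂ) = z0 * (((1 / g j : ℝ)) : ℂ) := by
        push_cast
        ring
      rw [h3]
      exact h2
    · filter_upwards [hfst.eventually hev, hz] with p hi hp
      obtain ⟨d, hd1, hd2, hd3, hd4⟩ := hi
      intro j
      rw [norm_neg, norm_mul, Complex.norm_real, Real.norm_eq_abs, abs_of_nonneg (hd1 j)]
      exact mul_le_mul hp (hd2 j) (hd1 j) (by positivity)
  have hB : Tendsto (fun p : ι × ℂ => GC g p.2) (l ×ˢ 𝓝 z0) (𝓝 (GC g z0)) :=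
    ((a_gcb g hmono h0 hF.gsum).1.continuous.tendsto z0).comp hsnd
  exact (hB.prodMk_nhds hA).mono_right (nhds_le_uniformity _)

end Pool.Agent.Q262.EX
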